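import Pool.Agent.N795.BV.Stm

set_option autoImplicit false

open Polynomial Filter Topology

namespace Pool.Agent.N795.BV

namespace H68

lemma rel_eval {m : ℕ} {z : Fin (m + 1) → ℂ} {w : Fin m → ℂ} (h : Rel z w) (x : ℂ) :
    ∑ k, ∏ j ∈ Finset.univ.erase k, (x - z j) = ((m : ℂ) + 1) * ∏ i, (x - w i) := by
  have h1 := congrArg (Polynomial.eval x) h
  rw [Polynomial.derivative_prod_finset] at h1
  simpa [Polynomial.eval_finset_sum, Polynomial.eval_prod] using h1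

lemma rel_of_eval {m : ℕ} {z : Fin (m + 1) → ℂ} {w : Fin m → ℂ}
    (h : ∀ x : ℂ, ∑ k, ∏ j ∈ Finset.univ.erase k, (x - z j) =
      ((m : ℂ) + 1) * ∏ i, (x - w i)) : Rel z w := by
  unfold Rel
  apply Polynomial.funext
  intro x
  rw [Polynomial.derivative_prod_finset]
  simpa [Polynomial.eval_finset_sum, Polynomial.eval_prod] using h x

lemma bnd {m : ℕ} {z : Fin (m + 1) → ℂ} (h : ∑ k, ‖z k‖ ^ 2 = (m : ℝ) + 1) (k : Fin (m + 1)) :
    ‖z k‖ ≤ (m : ℝ) + 1 := by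
  have h1 : ‖z k‖ ^ 2 ≤ ∑ k, ‖z k‖ ^ 2 :=
    Finset.single_le_sum (f := fun k => ‖z k‖ ^ 2) (fun i _ => by positivity) (Finset.mem_univ k)
  have h2 : (0 : ℝ) ≤ m := Nat.cast_nonneg m
  have h3 : 0 ≤ ‖z k‖ := norm_nonneg _
  nlinarith

lemma core (hG : S_GL) (hN : S_SEN) (m : ℕ) (hm : 1 ≤ m) (ε : ℝ) (hε : 0 < ε)
    (k : Fin (m + 1)) (i0 : Fin m) : ∃ δ : ℝ, 0 < δ ∧
    ∀ (z : Fin (m + 1) → ℂ) (w : Fin m → ℂ) (c : ℂ), Rel z w → ∑ k, z k = 0 →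
    ∑ k, ‖z k‖ ^ 2 = (m : ℝ) + 1 → (∀ i j, ‖z j - c‖ ≤ (1 + δ) * ‖w i - z k‖) →
    ‖w i0‖ ≤ ε := by
  by_contra hcon
  push Not at hcon
  have hpos : ∀ N : ℕ, (0 : ℝ) < 1 / ((N : ℝ) + 1) := fun N => by positivity
  choose z w c hR hs hq hd hw using fun N : ℕ => hcon _ (hpos N)
  set B : ℝ := (m : ℝ) + 1 with hB
  have hm0 : (0 : ℝ) ≤ m := Nat.cast_nonneg m
  have hB0 : 0 ≤ B := by positivity
  have hz : ∀ N j, ‖z N j‖ ≤ B := fun N j => bnd (hq N) j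
  have hwB : ∀ N i, ‖w N i‖ ≤ B := fun N i => hG m (z N) (w N) B (hR N) (hz N) i
  have hc : ∀ N, ‖c N‖ ≤ 5 * B := by
    intro N
    have h1 := hd N i0 0
    have h2 : ‖w N i0 - z N k‖ ≤ 2 * B := by
      calc ‖w N i0 - z N k‖ ≤ ‖w N i0‖ + ‖z N k‖ := norm_sub_le _ _
        _ ≤ 2 * B := by linarith [hwB N i0, hz N k]
    have h3 : 1 / ((N : ℝ) + 1) ≤ 1 := by
      rw [div_le_one (by positivity)]
      linarith [(Nat.cast_nonneg N : (0 : ℝ) ≤ N)]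
    have h4 : (1 + 1 / ((N : ℝ) + 1)) * ‖w N i0 - z N k‖ ≤ 2 * (2 * B) :=
      mul_le_mul (by linarith) h2 (norm_nonneg _) (by norm_num)
    calc ‖c N‖ = ‖z N 0 - (z N 0 - c N)‖ := by congr 1; ring
      _ ≤ ‖z N 0‖ + ‖z N 0 - c N‖ := norm_sub_le _ _
      _ ≤ 5 * B := by linarith [hz N 0]
  let x : ℕ → (Fin (m + 1) → ℂ) × (Fin m → ℂ) × ℂ := fun N => (z N, w N, c N)
  have hx : ∀ N, x N ∈ Metric.closedBall (0 : (Fin (m + 1) → ℂ) × (Fin m → ℂ) × ℂ) (5 * B) := by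
    intro N
    rw [mem_closedBall_zero_iff]
    have e1 : ‖z N‖ ≤ 5 * B :=
      (pi_norm_le_iff_of_nonneg (by positivity)).2 fun j => (hz N j).trans (by linarith)
    have e2 : ‖w N‖ ≤ 5 * B :=
      (pi_norm_le_iff_of_nonneg (by positivity)).2 fun j => (hwB N j).trans (by linarith)
    exact max_le e1 (max_le e2 (hc N))
  obtain ⟨a, -, φ, hφ, ha⟩ := (isCompact_closedBall
    (0 : (Fin (m + 1) → ℂ) × (Fin m → ℂ) × ℂ) (5 * B)).tendsto_subseq hx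
  obtain ⟨z', w', c'⟩ := a
  -- passing to the limit
  have tz : ∀ j, Tendsto (fun N => z (φ N) j) atTop (𝓝 (z' j)) := by
    intro j
    have hcont : Continuous fun p : (Fin (m + 1) → ℂ) × (Fin m → ℂ) × ℂ => p.1 j := by fun_prop
    exact (hcont.tendsto _).comp ha
  have tw : ∀ j, Tendsto (fun N => w (φ N) j) atTop (𝓝 (w' j)) := by
    intro j
    have hcont : Continuous fun p : (Fin (m + 1) → ℂ) × (Fin m → ℂ) × ℂ => p.2.1 j := by fun_prop
    exact (hcont.tendsto _).comp ha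
  have tc : Tendsto (fun N => c (φ N)) atTop (𝓝 c') := by
    have hcont : Continuous fun p : (Fin (m + 1) → ℂ) × (Fin m → ℂ) × ℂ => p.2.2 := by fun_prop
    exact (hcont.tendsto _).comp ha
  have tδ : Tendsto (fun N => 1 + 1 / (((φ N : ℕ) : ℝ) + 1)) atTop (𝓝 (1 + 0)) :=
    (tendsto_one_div_add_atTop_nhds_zero_nat.comp hφ.tendsto_atTop).const_add 1
  have hR' : Rel z' w' := by
    apply rel_of_eval
    intro y
    have t1 : Tendsto (fun N => ∑ k, ∏ j ∈ Finset.univ.erase k, (y - z (φ N) j)) atTop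
        (𝓝 (∑ k, ∏ j ∈ Finset.univ.erase k, (y - z' j))) :=
      tendsto_finset_sum _ fun k _ => tendsto_finset_prod _ fun j _ =>
        tendsto_const_nhds.sub (tz j)
    have t2 : Tendsto (fun N => ((m : ℂ) + 1) * ∏ i, (y - w (φ N) i)) atTop
        (𝓝 (((m : ℂ) + 1) * ∏ i, (y - w' i))) :=
      (tendsto_finset_prod _ fun j _ => tendsto_const_nhds.sub (tw j)).const_mul _
    refine tendsto_nhds_unique t1 (t2.congr fun N => ?_)
    exact (rel_eval (hR (φ N)) y).symm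
  have hs' : ∑ k, z' k = 0 := by
    have t1 : Tendsto (fun N => ∑ k, z (φ N) k) atTop (𝓝 (∑ k, z' k)) :=
      tendsto_finset_sum _ fun k _ => tz k
    refine tendsto_nhds_unique t1 ?_
    simp only [hs]
    exact tendsto_const_nhds
  have hd' : ∀ i j, ‖z' j - c'‖ ≤ ‖w' i - z' k‖ := by
    intro i j
    have t1 : Tendsto (fun N => ‖z (φ N) j - c (φ N)‖) atTop (𝓝 ‖z' j - c'‖) :=
      ((tz j).sub tc).norm
    have t2 : Tendsto (fun N => (1 + 1 / (((φ N : ℕ) : ℝ) + 1)) * ‖w (φ N) i - z (φ N) k‖) atTop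
        (𝓝 ((1 + 0) * ‖w' i - z' k‖)) := tδ.mul ((tw i).sub (tz k)).norm
    have := le_of_tendsto_of_tendsto' t1 t2 fun N => hd (φ N) i j
    simpa using this
  have h0 := hN m hm z' w' c' k hR' hs' hd' i0
  have t3 : Tendsto (fun N => ‖w (φ N) i0‖) atTop (𝓝 ‖w' i0‖) := (tw i0).norm
  have h4 : ε ≤ ‖w' i0‖ := ge_of_tendsto' t3 fun N => (hw (φ N)).le
  rw [h0, norm_zero] at h4
  linarith

end H68

theorem cmp (hG : S_GL) (hN : S_SEN) : S_CMP := by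
  intro m hm ε hε
  choose δ hδ0 hδ using fun p : Fin (m + 1) × Fin m => H68.core hG hN m hm ε hε p.1 p.2
  haveI : Nonempty (Fin m) := ⟨⟨0, hm⟩⟩
  obtain ⟨p0, hp0⟩ := Finite.exists_min δ
  refine ⟨δ p0, hδ0 p0, fun z w c k hR hs hq hd i => ?_⟩
  refine hδ (k, i) z w c hR hs hq fun i' j => (hd i' j).trans ?_
  exact mul_le_mul_of_nonneg_right (by linarith [hp0 (k, i)]) (norm_nonneg _)

end Pool.Agent.N795.BV
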