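import Pool.Agent.N378.KH.Stm2

/-!
# KH/GP: almost surely general position
-/

set_option autoImplicit false

open MeasureTheory Set
open scoped ENNReal

namespace Pool.Agent.N68.KH

open Pool.Agent.N378.KH

/-- The zero set of a nonzero real polynomial is a null set (after `Pool.Agent.H810R3.Tub.Poly`). -/
theorem zero_null (n : ℕ) : ∀ P : MvPolynomial (Fin n) ℝ, P ≠ 0 →
    volume {y : Fin n → ℝ | MvPolynomial.eval y P = 0} = 0 := by
  induction n with
  | zero =>
    intro P hP
    have : {y : Fin 0 → ℝ | MvPolynomial.eval y P = 0} = ∅ := by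
      ext y
      simp only [Set.mem_ofPred_eq, Set.mem_empty_iff_false, iff_false]
      intro h
      apply hP
      apply MvPolynomial.funext
      intro z
      have : z = y := Subsingleton.elim _ _
      rw [this, h, map_zero]
    rw [this, measure_empty]
  | succ n ih =>
    intro P hP
    set f := MvPolynomial.finSuccEquiv ℝ n P with hf
    have hf0 : f ≠ 0 := by
      rw [hf]; exact (map_ne_zero_iff _ (MvPolynomial.finSuccEquiv ℝ n).injective).2 hP
    obtain ⟨m, hm⟩ : ∃ m, f.coeff m ≠ 0 := by
      by_contra hcon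
      push Not at hcon
      exact hf0 (Polynomial.ext (by simpa using hcon))
    have hnull := ih (f.coeff m) hm
    set S := {y : Fin (n + 1) → ℝ | MvPolynomial.eval y P = 0} with hS
    set S' := {z : ℝ × (Fin n → ℝ) | MvPolynomial.eval (Fin.cons z.1 z.2 : Fin (n + 1) → ℝ) P = 0} with hS'
    have hcont : Continuous (fun z : ℝ × (Fin n → ℝ) =>
        MvPolynomial.eval (Fin.cons z.1 z.2 : Fin (n + 1) → ℝ) P) := by
      refine (MvPolynomial.continuous_eval P).comp ?_
      refine continuous_pi ?_
      intro i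
      refine Fin.cases ?_ (fun i => ?_) i
      · simp only [Fin.cons_zero]; fun_prop
      · simp only [Fin.cons_succ]; fun_prop
    have hmeas : MeasurableSet S' := (isClosed_singleton.preimage hcont).measurableSet
    have hpre : S = (MeasurableEquiv.piFinSuccAbove (fun _ => ℝ) 0) ⁻¹' S' := by
      ext y
      simp only [hS, hS', Set.mem_ofPred_eq, Set.mem_preimage]
      have : (Fin.cons (((MeasurableEquiv.piFinSuccAbove (fun _ => ℝ) 0) y).1)
          (((MeasurableEquiv.piFinSuccAbove (fun _ => ℝ) 0) y).2) :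
          Fin (n + 1) → ℝ) = y := by
        funext j
        refine Fin.cases ?_ (fun j => ?_) j
        · rfl
        · rfl
      rw [this]
    rw [hpre, (volume_preserving_piFinSuccAbove (fun _ => ℝ) 0).measure_preimage_equiv]
    have hswap : volume S' = (volume : Measure ((Fin n → ℝ) × ℝ)) (Prod.swap ⁻¹' S') := by
      have := (Measure.measurePreserving_swap (μ := (volume : Measure (Fin n → ℝ)))
        (ν := (volume : Measure ℝ))).measure_preimage hmeas.nullMeasurableSet
      exact this.symm
    rw [hswap, Measure.volume_eq_prod, Measure.measure_prod_null (measurable_swap hmeas)]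
    have hae : ∀ᵐ y : Fin n → ℝ, y ∉ {y : Fin n → ℝ |
        MvPolynomial.eval y (f.coeff m) = 0} := measure_eq_zero_iff_ae_notMem.1 hnull
    filter_upwards [hae] with y hy
    have hy' : MvPolynomial.eval y (f.coeff m) ≠ 0 := hy
    have hmap : f.map (MvPolynomial.eval y) ≠ 0 := by
      intro h0
      apply hy'
      have := congrArg (fun q => Polynomial.coeff q m) h0
      simpa [Polynomial.coeff_map] using this
    have hfin : (Prod.mk y ⁻¹' (Prod.swap ⁻¹' S')).Finite := by
      refine Set.Finite.subset (Polynomial.rootSet_finite (f.map (MvPolynomial.eval y)) ℝ) ?_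
      intro a ha
      rw [Polynomial.mem_rootSet]
      refine ⟨hmap, ?_⟩
      have h1 := MvPolynomial.eval_eq_eval_mv_eval' y a P
      rw [Polynomial.coe_aeval_eq_eval, ← hf] at *
      rw [← h1]
      exact ha
    exact hfin.measure_zero volume


theorem zero_null' {σ : Type} [Fintype σ] (P : MvPolynomial σ ℝ) (hP : P ≠ 0) :
    volume {y : σ → ℝ | MvPolynomial.eval y P = 0} = 0 := by
  set e := Fintype.equivFin σ with he
  set P' := MvPolynomial.rename e P with hP'
  have hP'0 : P' ≠ 0 := by
    rw [hP']
    exact (map_ne_zero_iff _ (MvPolynomial.rename_injective _ e.injective)).2 hP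
  have h1 := zero_null _ P' hP'0
  have h2 := volume_measurePreserving_piCongrLeft (fun _ : Fin (Fintype.card σ) => ℝ) e
  have hpre : {y : σ → ℝ | MvPolynomial.eval y P = 0} =
      (MeasurableEquiv.piCongrLeft (fun _ : Fin (Fintype.card σ) => ℝ) e) ⁻¹'
        {y : Fin (Fintype.card σ) → ℝ | MvPolynomial.eval y P' = 0} := by
    ext y
    simp only [Set.mem_ofPred_eq, Set.mem_preimage]
    rw [hP', MvPolynomial.eval_rename]
    have : (((MeasurableEquiv.piCongrLeft (fun _ : Fin (Fintype.card σ) => ℝ) e) y) ∘ e) = y := by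
      funext j
      exact Equiv.piCongrLeft_apply_apply (fun _ => ℝ) e y j
    rw [this]
  rw [hpre, h2.measure_preimage_equiv]
  exact h1

theorem mp_fl (n m : ℕ) : MeasurePreserving (fun x : Fin n → Fin (m + 1) → ℝ => fl x)
    volume volume := by
  have hmeas : Measurable (fun x : Fin n → Fin (m + 1) → ℝ => fl x) := by
    unfold fl
    fun_prop
  refine ⟨hmeas, ?_⟩
  symm
  refine Measure.pi_eq fun s hs => ?_
  rw [Measure.map_apply hmeas (MeasurableSet.univ_pi hs)]
  have hpre : (fun x : Fin n → Fin (m + 1) → ℝ => fl x) ⁻¹' (Set.univ.pi s) =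
      Set.univ.pi fun i => Set.univ.pi fun j => s (i, j) := by
    ext x
    simp [fl, Set.mem_pi]
  rw [hpre, volume_pi_pi]
  simp only [volume_pi_pi]
  rw [Fintype.prod_prod_type]

theorem pi_ac {α : Type} [MeasurableSpace α] (n : ℕ) : ∀ (μ ν : Fin n → Measure α),
    (∀ i, SigmaFinite (μ i)) → (∀ i, SigmaFinite (ν i)) → (∀ i, μ i ≪ ν i) →
    Measure.pi μ ≪ Measure.pi ν := by
  induction n with
  | zero =>
    intro μ ν _ _ _
    rw [Measure.pi_of_empty, Measure.pi_of_empty]
  | succ n ih =>
    intro μ ν hμ hν h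
    have h1 := measurePreserving_piFinSuccAbove μ 0
    have h2 := measurePreserving_piFinSuccAbove ν 0
    have h3 := (h1.symm (MeasurableEquiv.piFinSuccAbove (fun _ => α) 0)).map_eq
    have h4 := (h2.symm (MeasurableEquiv.piFinSuccAbove (fun _ => α) 0)).map_eq
    rw [← h3, ← h4]
    exact ((h 0).prod (ih (fun j => μ ((0 : Fin (n + 1)).succAbove j))
      (fun j => ν ((0 : Fin (n + 1)).succAbove j)) (fun j => hμ _) (fun j => hν _)
      (fun j => h _))).map (MeasurableEquiv.measurable _)

/-- the matrix -/
noncomputable def AM {n m : ℕ} (t : Fin (m + 2) → Fin n) :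
    Matrix (Fin (m + 2)) (Fin (m + 2)) (MvPolynomial (Fin n × Fin (m + 1)) ℝ) :=
  fun k l => Fin.lastCases (motive := fun _ => MvPolynomial (Fin n × Fin (m + 1)) ℝ) 1
    (fun j => MvPolynomial.X (t k, j)) l

/-- the evaluated matrix -/
def AE {n m : ℕ} (t : Fin (m + 2) → Fin n) (y : Fin n × Fin (m + 1) → ℝ) :
    Matrix (Fin (m + 2)) (Fin (m + 2)) ℝ :=
  fun k l => Fin.lastCases (motive := fun _ => ℝ) 1 (fun j => y (t k, j)) l

theorem eval_det {n m : ℕ} (t : Fin (m + 2) → Fin n) (y : Fin n × Fin (m + 1) → ℝ) :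
    MvPolynomial.eval y (AM t).det = (AE t y).det := by
  rw [RingHom.map_det]
  congr 1
  ext k l
  refine Fin.lastCases ?_ (fun j => ?_) l
  · simp [AM, AE]
  · simp [AM, AE]

theorem det_ne {n m : ℕ} (t : Fin (m + 2) → Fin n) (ht : Function.Injective t) :
    (AM t).det ≠ 0 := by
  intro h0
  have h1 := eval_det t (fun e => if e.1 = t (Fin.castSucc e.2) then 1 else 0)
  rw [h0, map_zero] at h1
  have h2 : (AE t (fun e : Fin n × Fin (m + 1) => if e.1 = t (Fin.castSucc e.2) then (1 : ℝ) else 0)).det = 1 := by
    rw [Matrix.det_of_upperTriangular]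
    · apply Finset.prod_eq_one
      intro k _
      refine Fin.lastCases ?_ (fun j => ?_) k
      · simp [AE]
      · simp [AE]
    · intro k l hlk
      revert hlk
      refine Fin.lastCases ?_ (fun j => ?_) l
      · intro hlk
        exact absurd hlk (not_lt.2 (Fin.le_last k))
      · intro hlk
        have hne : k ≠ Fin.castSucc j := (ne_of_lt hlk).symm
        simp [AE, ht.eq_iff, hne]
  rw [h2] at h1
  exact zero_ne_one h1

theorem sing {n m : ℕ} (t : Fin (m + 2) → Fin n) (x : Fin n → Fin (m + 1) → ℝ)
    (u : Fin (m + 1) → ℝ) (c : ℝ) (hu : u ≠ 0) (h : ∀ k, ∑ j, u j * x (t k) j = c) :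
    (AE t (fl x)).det = 0 := by
  rw [← Matrix.exists_mulVec_eq_zero_iff]
  refine ⟨fun l => Fin.lastCases (motive := fun _ => ℝ) (-c) u l, ?_, ?_⟩
  · intro h0
    apply hu
    funext j
    have := congrFun h0 (Fin.castSucc j)
    simpa using this
  · funext k
    rw [Matrix.mulVec, dotProduct, Fin.sum_univ_castSucc]
    simp only [AE, Fin.lastCases_castSucc, Fin.lastCases_last, Pi.zero_apply, fl, one_mul]
    have := h k
    have e : ∑ j, x (t k) j * u j = c := by
      rw [← this]
      exact Finset.sum_congr rfl fun j _ => mul_comm _ _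
    rw [e]
    ring

theorem t_GP : S_GP := by
  intro n m D μ hD hμ
  have hac : Measure.pi μ ≪ (volume : Measure (Fin n → Fin (m + 1) → ℝ)) := by
    have := fun i => (hμ.1 i)
    refine pi_ac n μ (fun _ => volume) (fun i => inferInstance) (fun i => inferInstance) ?_
    intro i
    refine (Measure.absolutelyContinuous_of_le (hμ.2 i)).trans ?_
    refine (Measure.smul_absolutelyContinuous).trans ?_
    exact Measure.restrict_le_self.absolutelyContinuous
  refine hac.ae_le ?_
  have key : ∀ T : Finset (Fin n), ∀ᵐ x : Fin n → Fin (m + 1) → ℝ, T.card = m + 2 →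
      ¬ ∃ (u : Fin (m + 1) → ℝ) (c : ℝ), u ≠ 0 ∧ ∀ i ∈ T, ∑ j, u j * x i j = c := by
    intro T
    by_cases hT : T.card = m + 2
    · set t : Fin (m + 2) → Fin n := fun k => T.orderEmbOfFin hT k with ht
      have htinj : Function.Injective t := (T.orderEmbOfFin hT).injective
      have h0 := zero_null' (AM t).det (det_ne t htinj)
      have h1 := (mp_fl n m).quasiMeasurePreserving.preimage_null h0
      have h2 : ∀ᵐ x : Fin n → Fin (m + 1) → ℝ, x ∉ (fun x : Fin n → Fin (m + 1) → ℝ => fl x) ⁻¹'
          {y | MvPolynomial.eval y (AM t).det = 0} := measure_eq_zero_iff_ae_notMem.1 h1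
      filter_upwards [h2] with x hx _
      rintro ⟨u, c, hu, huc⟩
      apply hx
      show MvPolynomial.eval (fl x) (AM t).det = 0
      rw [eval_det]
      exact sing t x u c hu fun k => huc _ (T.orderEmbOfFin_mem hT k)
    · exact Filter.Eventually.of_forall fun x h => absurd h hT
  have := ae_all_iff.2 key
  filter_upwards [this] with x hx T hT
  exact hx T hT

end Pool.Agent.N68.KH
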